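import Mathlib

/-!
# No positive matrix needs three or more alternating scalings

If the alternate row and column scaling of a positive matrix reaches a doubly stochastic matrix at
step `N ≥ 3`, then it had reached one already at step `N - 1`.  Hence for all `L ≥ 3` and all `n`
no positive `n × n` matrix requires exactly `L` scalings.
-/

namespace Pool.Agent.Results.MP_407c22_co.AtMostTwoScalings

open Finset

/-- All entries are positive. -/
def IsPositive {n : ℕ} (A : Matrix (Fin n) (Fin n) ℝ) : Prop := ∀ i j, 0 < A i j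

/-- Every row sums to `1`. -/
def RowStochastic {n : ℕ} (A : Matrix (Fin n) (Fin n) ℝ) : Prop := ∀ i, ∑ j, A i j = 1

/-- Every column sums to `1`. -/
def ColStochastic {n : ℕ} (A : Matrix (Fin n) (Fin n) ℝ) : Prop := ∀ j, ∑ i, A i j = 1

/-- Every row and every column sums to `1`. -/
def DoublyStochastic {n : ℕ} (A : Matrix (Fin n) (Fin n) ℝ) : Prop :=
  RowStochastic A ∧ ColStochastic A

/-- The row scaling `R(A) = diag(1/r₁, …, 1/rₙ) A`, `rᵢ` the row sums of `A`. -/
noncomputable def rowScale {n : ℕ} (A : Matrix (Fin n) (Fin n) ℝ) : Matrix (Fin n) (Fin n) ℝ :=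
  Matrix.diagonal (fun i => 1 / ∑ k, A i k) * A

/-- The column scaling `C(A) = A diag(1/c₁, …, 1/cₙ)`, `cⱼ` the column sums of `A`. -/
noncomputable def colScale {n : ℕ} (A : Matrix (Fin n) (Fin n) ℝ) : Matrix (Fin n) (Fin n) ℝ :=
  A * Matrix.diagonal (fun j => 1 / ∑ k, A k j)

/-- The alternate scaling sequence `A₀ = A`, `A₂ₖ₊₁ = R(A₂ₖ)`, `A₂ₖ₊₂ = C(A₂ₖ₊₁)`. -/
noncomputable def scalingSeq {n : ℕ} (A : Matrix (Fin n) (Fin n) ℝ) :
    ℕ → Matrix (Fin n) (Fin n) ℝ
  | 0 => A
  | k + 1 => if Even k then rowScale (scalingSeq A k) else colScale (scalingSeq A k)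

open Classical in
/-- `A` requires exactly `L` scalings: there is a least index `N` for which `A_N` is doubly
stochastic, and `L` is the number of the indices `1 ≤ k ≤ N` with `A_k ≠ A_{k-1}`. -/
def RequiresExactly {n : ℕ} (A : Matrix (Fin n) (Fin n) ℝ) (L : ℕ) : Prop :=
  ∃ N, DoublyStochastic (scalingSeq A N) ∧ (∀ m < N, ¬ DoublyStochastic (scalingSeq A m)) ∧
    L = ((Finset.Icc 1 N).filter (fun k => scalingSeq A k ≠ scalingSeq A (k - 1))).card

variable {n : ℕ} {A : Matrix (Fin n) (Fin n) ℝ}

lemma rowScale_apply (i j : Fin n) : rowScale A i j = A i j / ∑ k, A i k := by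
  rw [rowScale, Matrix.diagonal_mul]; ring

lemma colScale_apply (i j : Fin n) : colScale A i j = A i j / ∑ k, A k j := by
  rw [colScale, Matrix.mul_diagonal]; ring

lemma row_pos (hA : IsPositive A) (i : Fin n) : 0 < ∑ k, A i k :=
  Finset.sum_pos (fun k _ => hA i k) ⟨i, Finset.mem_univ i⟩

lemma col_pos (hA : IsPositive A) (j : Fin n) : 0 < ∑ k, A k j :=
  Finset.sum_pos (fun k _ => hA k j) ⟨j, Finset.mem_univ j⟩

lemma rowScale_pos (hA : IsPositive A) : IsPositive (rowScale A) := fun i j => by
  rw [rowScale_apply]; exact div_pos (hA i j) (row_pos hA i)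

lemma colScale_pos (hA : IsPositive A) : IsPositive (colScale A) := fun i j => by
  rw [colScale_apply]; exact div_pos (hA i j) (col_pos hA j)

lemma rowScale_stochastic (hA : IsPositive A) : RowStochastic (rowScale A) := fun i => by
  simp only [rowScale_apply]
  rw [← Finset.sum_div]
  exact div_self (row_pos hA i).ne'

lemma colScale_stochastic (hA : IsPositive A) : ColStochastic (colScale A) := fun j => by
  simp only [colScale_apply]
  rw [← Finset.sum_div]
  exact div_self (col_pos hA j).ne'

/-- The key step, columns last. -/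
lemma key_col (hA : IsPositive A) (hc : ColStochastic A)
    (hD : DoublyStochastic (colScale (rowScale A))) : DoublyStochastic (rowScale A) := by
  refine ⟨rowScale_stochastic hA, ?_⟩
  set r : Fin n → ℝ := fun i => ∑ k, A i k with hr
  set c : Fin n → ℝ := fun j => ∑ k, rowScale A k j with hcdef
  have hB := rowScale_pos hA
  have hcpos : ∀ j, 0 < c j := fun j => col_pos hB j
  have hrpos : ∀ i, 0 < r i := fun i => row_pos hA i
  -- the sum of the `c j` is `n`
  have h1 : ∑ j, c j = n := by
    simp only [hcdef]
    rw [Finset.sum_comm]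
    simp [rowScale_stochastic hA _]
  -- the sum of the `1 / c j` is `n`
  have h2 : ∑ j, 1 / c j = n := by
    have e1 : ∀ j, ∑ i, r i * colScale (rowScale A) i j = 1 / c j := by
      intro j
      have : ∀ i, r i * colScale (rowScale A) i j = A i j / c j := by
        intro i
        rw [colScale_apply, rowScale_apply]
        have := (hrpos i).ne'
        change r i * (A i j / r i / c j) = _
        field_simp
      rw [Finset.sum_congr rfl (fun i _ => this i), ← Finset.sum_div, hc j]
    rw [← Finset.sum_congr rfl (fun j _ => e1 j), Finset.sum_comm]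
    have e2 : ∀ i, ∑ j, r i * colScale (rowScale A) i j = r i := by
      intro i
      rw [← Finset.mul_sum, hD.1 i, mul_one]
    rw [Finset.sum_congr rfl (fun i _ => e2 i)]
    have e3 : ∑ i, r i = ∑ k, ∑ i, A i k := Finset.sum_comm
    rw [e3, Finset.sum_congr rfl (fun k _ => hc k)]
    simp
  have h3 : ∑ j, (c j + 1 / c j - 2) = 0 := by
    rw [Finset.sum_sub_distrib, Finset.sum_add_distrib, h1, h2]
    simp
    ring
  have h4 : ∀ j, 0 ≤ c j + 1 / c j - 2 := by
    intro j
    have := hcpos j
    have e : c j + 1 / c j - 2 = (c j - 1) ^ 2 / c j := by field_simp; ring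
    rw [e]; positivity
  have h5 := (Finset.sum_eq_zero_iff_of_nonneg (fun j _ => h4 j)).1 h3
  intro j
  have h6 := h5 j (Finset.mem_univ j)
  have := hcpos j
  have e : c j + 1 / c j - 2 = (c j - 1) ^ 2 / c j := by field_simp; ring
  rw [e, div_eq_zero_iff] at h6
  rcases h6 with h6 | h6
  · have : c j - 1 = 0 := by simpa using h6
    change c j = 1
    linarith
  · exact absurd h6 this.ne'

lemma rowScale_transpose : rowScale A.transpose = (colScale A).transpose := by
  ext i j
  rw [rowScale_apply, Matrix.transpose_apply, Matrix.transpose_apply, colScale_apply]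
  simp [Matrix.transpose_apply]

lemma colScale_transpose : colScale A.transpose = (rowScale A).transpose := by
  ext i j
  rw [colScale_apply, Matrix.transpose_apply, Matrix.transpose_apply, rowScale_apply]
  simp [Matrix.transpose_apply]

lemma doubly_transpose : DoublyStochastic A.transpose ↔ DoublyStochastic A := by
  unfold DoublyStochastic RowStochastic ColStochastic
  simp only [Matrix.transpose_apply]
  tauto

/-- The key step, rows last. -/
lemma key_row (hA : IsPositive A) (hc : RowStochastic A)
    (hD : DoublyStochastic (rowScale (colScale A))) : DoublyStochastic (colScale A) := by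
  have h := key_col (A := A.transpose) (fun i j => hA j i) (fun j => hc j)
    (by rw [rowScale_transpose, colScale_transpose]; exact doubly_transpose.2 hD)
  rw [rowScale_transpose] at h
  exact doubly_transpose.1 h

lemma scalingSeq_pos (hA : IsPositive A) (k : ℕ) : IsPositive (scalingSeq A k) := by
  induction k with
  | zero => exact hA
  | succ k ih =>
    rw [scalingSeq]
    split_ifs
    · exact rowScale_pos ih
    · exact colScale_pos ih

/-- If `A_{k+3}` is doubly stochastic, so is `A_{k+2}`. -/
lemma step_back (hA : IsPositive A) (k : ℕ) (hD : DoublyStochastic (scalingSeq A (k + 3))) :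
    DoublyStochastic (scalingSeq A (k + 2)) := by
  have hpos := scalingSeq_pos hA (k + 1)
  by_cases hk : Even k
  · -- `A_{k+1}` row scaled, `A_{k+2}` column scaled, `A_{k+3}` row scaled
    have h1 : scalingSeq A (k + 1) = rowScale (scalingSeq A k) := by
      rw [scalingSeq, if_pos hk]
    have hk1 : ¬ Even (k + 1) := by rw [Nat.not_even_iff_odd]; exact hk.add_one
    have h2 : scalingSeq A (k + 2) = colScale (scalingSeq A (k + 1)) := by
      rw [scalingSeq, if_neg hk1]
    have hk2 : Even (k + 2) := by
      rcases hk with ⟨a, ha⟩; exact ⟨a + 1, by omega⟩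
    have h3 : scalingSeq A (k + 3) = rowScale (scalingSeq A (k + 2)) := by
      rw [scalingSeq, if_pos hk2]
    rw [h3, h2] at hD
    rw [h2]
    refine key_row hpos ?_ hD
    rw [h1]
    exact rowScale_stochastic (scalingSeq_pos hA k)
  · have h1 : scalingSeq A (k + 1) = colScale (scalingSeq A k) := by
      rw [scalingSeq, if_neg hk]
    have hk' : Odd k := Nat.not_even_iff_odd.1 hk
    have hk1 : Even (k + 1) := hk'.add_one
    have h2 : scalingSeq A (k + 2) = rowScale (scalingSeq A (k + 1)) := by
      rw [scalingSeq, if_pos hk1]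
    have hk2 : ¬ Even (k + 2) := by
      rw [Nat.not_even_iff_odd]; rcases hk' with ⟨a, ha⟩; exact ⟨a + 1, by omega⟩
    have h3 : scalingSeq A (k + 3) = colScale (scalingSeq A (k + 2)) := by
      rw [scalingSeq, if_neg hk2]
    rw [h3, h2] at hD
    rw [h2]
    refine key_col hpos ?_ hD
    rw [h1]
    exact colScale_stochastic (scalingSeq_pos hA k)

/-- For all `n` and all `L ≥ 3`, no positive `n × n` matrix requires exactly `L` scalings. -/
theorem result (n L : ℕ) (hL : 3 ≤ L) :
    ¬ ∃ A : Matrix (Fin n) (Fin n) ℝ, IsPositive A ∧ RequiresExactly A L := by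
  classical
  rintro ⟨A, hA, N, hN, hmin, hcard⟩
  have h1 : L ≤ N := by
    rw [hcard]
    refine (Finset.card_filter_le _ _).trans ?_
    simp
  obtain ⟨k, rfl⟩ : ∃ k, N = k + 3 := ⟨N - 3, by omega⟩
  exact hmin (k + 2) (by omega) (step_back hA k hN)

end Pool.Agent.Results.MP_407c22_co.AtMostTwoScalings
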