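import Mathlib

/-!
# Continuous endomorphisms of `K^ℕ` have algebraic entropy `0` or `∞`

Let `G` be a compact Hausdorff abelian torsion group and `φ` a continuous endomorphism with finite
algebraic entropy.  Choose a finite subgroup `F₀` whose entropy is within `1/4` of the supremum.
Then for every `v` a pigeonhole argument gives a polynomial `c` with coefficients in `{-1, 0, 1}`,
`c ≠ 0`, such that `c(φ) v` lies in the countable group generated by the `φⁱ F₀`.  By Baire's
theorem the kernel of some `c(φ)` is open, so the image of `c(φ)` is finite and `φ` is a root of a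
monic integer polynomial.  Hence all trajectories of finite subgroups are finite.
-/

namespace Pool.Agent.N431.Shelf.EntropyDichotomy

open Filter Topology Polynomial

variable {G : Type*} [AddCommGroup G]

/-- `T_n(φ, F) = F + φ(F) + … + φ^{n-1}(F)`. -/
def traj (φ : AddMonoid.End G) (F : AddSubgroup G) (n : ℕ) : AddSubgroup G :=
  ⨆ i ∈ Finset.range n, AddSubgroup.map ((φ ^ i : AddMonoid.End G) : G →+ G) F

/-- `H(φ, F) = lim (log |T_n(φ, F)|) / n` (written as an upper limit; the limit exists). -/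
noncomputable def entAt (φ : AddMonoid.End G) (F : AddSubgroup G) : EReal :=
  limsup (fun n : ℕ => ((Real.log (Nat.card (traj φ F n)) / n : ℝ) : EReal)) atTop

/-- The algebraic entropy: the supremum of `H(φ, F)` over the finite subgroups `F`. -/
noncomputable def ent (φ : AddMonoid.End G) : EReal :=
  ⨆ (F : AddSubgroup G) (_ : (F : Set G).Finite), entAt φ F

lemma traj_zero (φ : AddMonoid.End G) (F : AddSubgroup G) : traj φ F 0 = ⊥ := by
  simp [traj]

lemma traj_succ (φ : AddMonoid.End G) (F : AddSubgroup G) (n : ℕ) :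
    traj φ F (n + 1) = AddSubgroup.map ((φ ^ n : AddMonoid.End G) : G →+ G) F ⊔ traj φ F n := by
  rw [traj, Finset.range_add_one, Finset.iSup_insert]
  rfl

lemma mem_traj (φ : AddMonoid.End G) (F : AddSubgroup G) {i n : ℕ} (hi : i < n) {g : G}
    (hg : g ∈ F) : (φ ^ i) g ∈ traj φ F n := by
  have h : AddSubgroup.map ((φ ^ i : AddMonoid.End G) : G →+ G) F ≤ traj φ F n :=
    le_iSup₂_of_le i (Finset.mem_range.2 hi) le_rfl
  exact h (AddSubgroup.mem_map_of_mem _ hg)

lemma traj_mono (φ : AddMonoid.End G) {F F' : AddSubgroup G} (h : F ≤ F') (n : ℕ) :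
    traj φ F n ≤ traj φ F' n :=
  iSup₂_mono fun _ _ => AddSubgroup.map_mono h

lemma sup_finite {A B : AddSubgroup G} (hA : (A : Set G).Finite) (hB : (B : Set G).Finite) :
    ((A ⊔ B : AddSubgroup G) : Set G).Finite := by
  rw [AddSubgroup.add_normal]
  exact hA.add hB

lemma traj_finite (φ : AddMonoid.End G) {F : AddSubgroup G} (hF : (F : Set G).Finite) (n : ℕ) :
    (traj φ F n : Set G).Finite := by
  induction n with
  | zero => rw [traj_zero]; simp
  | succ n ih =>
    rw [traj_succ]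
    refine sup_finite ?_ ih
    exact hF.image (fun x => (φ ^ n) x)

lemma end_sum_apply {ι : Type*} (s : Finset ι) (f : ι → AddMonoid.End G) (x : G) :
    (∑ i ∈ s, f i) x = ∑ i ∈ s, f i x := by
  classical
  induction s using Finset.induction_on with
  | empty => simp
  | insert a s ha ih =>
    rw [Finset.sum_insert ha, Finset.sum_insert ha, ← ih]
    rfl

lemma end_sub_apply (f g : AddMonoid.End G) (x : G) : (f - g) x = f x - g x := rfl

/-! ### The polynomial attached to two finite sets of exponents -/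

/-- `∑_{i ∈ s} X^i - ∑_{i ∈ t} X^i`. -/
noncomputable def pol (s t : Finset ℕ) : ℤ[X] := ∑ i ∈ s, X ^ i - ∑ i ∈ t, X ^ i

lemma coeff_pol (s t : Finset ℕ) (k : ℕ) :
    (pol s t).coeff k = (if k ∈ s then 1 else 0) - (if k ∈ t then 1 else 0) := by
  simp [pol, Polynomial.coeff_X_pow]

lemma pol_ne_zero {s t : Finset ℕ} (h : s ≠ t) : pol s t ≠ 0 := by
  intro h0
  apply h
  ext k
  have := coeff_pol s t k
  rw [h0, Polynomial.coeff_zero] at this
  by_cases h1 : k ∈ s <;> by_cases h2 : k ∈ t <;> simp_all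

lemma leadingCoeff_pol {s t : Finset ℕ} (h : s ≠ t) :
    (pol s t).leadingCoeff = 1 ∨ (pol s t).leadingCoeff = -1 := by
  have h1 : (pol s t).leadingCoeff ≠ 0 := Polynomial.leadingCoeff_ne_zero.2 (pol_ne_zero h)
  rw [Polynomial.leadingCoeff, coeff_pol] at h1 ⊢
  split_ifs at h1 ⊢ <;> simp_all

lemma aeval_pol (φ : AddMonoid.End G) (s t : Finset ℕ) (v : G) :
    (aeval φ (pol s t)) v = ∑ i ∈ s, (φ ^ i) v - ∑ i ∈ t, (φ ^ i) v := by
  rw [pol, map_sub, map_sum, map_sum]
  simp only [map_pow, aeval_X]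
  rw [end_sub_apply, end_sum_apply, end_sum_apply]

/-- The pigeonhole step. -/
lemma exists_pol (φ : AddMonoid.End G) {F₀ : AddSubgroup G} (v : G)
    {n : ℕ} (hfin : (traj φ (F₀ ⊔ AddSubgroup.zmultiples v) n : Set G).Finite)
    (hcard : Nat.card (traj φ (F₀ ⊔ AddSubgroup.zmultiples v) n) <
      Nat.card (traj φ F₀ n) * 2 ^ n) :
    ∃ c : ℤ[X], (c.leadingCoeff = 1 ∨ c.leadingCoeff = -1) ∧ (aeval φ c) v ∈ traj φ F₀ n := by
  classical
  set F := F₀ ⊔ AddSubgroup.zmultiples v with hFdef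
  have hv : v ∈ F := (le_sup_right : _ ≤ F) (AddSubgroup.mem_zmultiples v)
  have hle : traj φ F₀ n ≤ traj φ F n := traj_mono φ le_sup_left n
  have hsum : ∀ s ∈ (Finset.range n).powerset, ∑ i ∈ s, (φ ^ i) v ∈ traj φ F n := by
    intro s hs
    refine AddSubgroup.sum_mem _ fun i hi => mem_traj φ F ?_ hv
    exact Finset.mem_range.1 (Finset.mem_powerset.1 hs hi)
  let f : (traj φ F₀ n) × ((Finset.range n).powerset) → traj φ F n :=
    fun p => ⟨(p.1 : G) + ∑ i ∈ p.2.1, (φ ^ i) v,
      AddSubgroup.add_mem _ (hle p.1.2) (hsum _ p.2.2)⟩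
  have hfinT : Finite (traj φ F n) := hfin
  have hnot : ¬ Function.Injective f := by
    intro hinj
    have h1 := Nat.card_le_card_of_injective f hinj
    rw [Nat.card_prod, Nat.card_eq_fintype_card (α := (Finset.range n).powerset),
      Fintype.card_coe, Finset.card_powerset, Finset.card_range] at h1
    omega
  rw [Function.not_injective_iff] at hnot
  obtain ⟨⟨w, s⟩, ⟨w', t⟩, heq, hne⟩ := hnot
  have heq' : (w : G) + ∑ i ∈ s.1, (φ ^ i) v = w' + ∑ i ∈ t.1, (φ ^ i) v :=
    congrArg Subtype.val heq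
  have hst : s.1 ≠ t.1 := by
    intro hst
    rw [hst] at heq'
    apply hne
    have h1 : w = w' := Subtype.ext (add_right_cancel heq')
    have h2 : s = t := Subtype.ext hst
    rw [h1, h2]
  refine ⟨pol s.1 t.1, leadingCoeff_pol hst, ?_⟩
  rw [aeval_pol]
  have h3 : ∑ i ∈ s.1, (φ ^ i) v - ∑ i ∈ t.1, (φ ^ i) v = (w' : G) - w := by
    rw [sub_eq_sub_iff_add_eq_add, add_comm, heq']
  rw [h3]
  exact AddSubgroup.sub_mem _ w'.2 w.2

/-! ### Monic equations bound the trajectories -/

lemma traj_le_of_monic (φ : AddMonoid.End G) {m : ℤ[X]} (hm : m.Monic) (h0 : aeval φ m = 0)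
    (F : AddSubgroup G) (n : ℕ) : traj φ F n ≤ traj φ F m.natDegree := by
  refine iSup₂_le fun i _ => ?_
  rintro _ ⟨g, hg, rfl⟩
  change (φ ^ i) g ∈ _
  by_cases h1 : m = 1
  · have h2 : (1 : AddMonoid.End G) = 0 := by rw [← h0, h1, map_one]
    have h3 : ∀ x : G, x = 0 := fun x => by
      have := DFunLike.congr_fun h2 x
      simpa using this
    rw [h3 ((φ ^ i) g)]
    exact AddSubgroup.zero_mem _
  · have h2 : φ ^ i = aeval φ ((X : ℤ[X]) ^ i %ₘ m) := by
      have h3 := congrArg (aeval φ) (Polynomial.modByMonic_add_div ((X : ℤ[X]) ^ i) m)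
      rw [map_add, map_mul, h0, zero_mul, add_zero, map_pow, aeval_X] at h3
      exact h3.symm
    rw [h2, aeval_eq_sum_range' (Polynomial.natDegree_modByMonic_lt _ hm h1),
      end_sum_apply]
    refine AddSubgroup.sum_mem _ fun j hj => ?_
    have h4 := mem_traj φ F (Finset.mem_range.1 hj) hg
    have h5 : ∀ (a : ℤ) (ψ : AddMonoid.End G), (a • ψ) g = a • (ψ g) := fun a ψ => rfl
    rw [h5]
    exact AddSubgroup.zsmul_mem _ h4 _

lemma entAt_nonneg (φ : AddMonoid.End G) (F : AddSubgroup G) : 0 ≤ entAt φ F := by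
  refine le_limsup_of_frequently_le (Eventually.frequently (Eventually.of_forall fun n => ?_))
  have h1 : (0 : ℝ) ≤ Real.log (Nat.card (traj φ F n)) / n :=
    div_nonneg (Real.log_natCast_nonneg _) (Nat.cast_nonneg _)
  exact_mod_cast h1

lemma entAt_le_zero (φ : AddMonoid.End G) {F : AddSubgroup G} (hF : (F : Set G).Finite) {m : ℕ}
    (h : ∀ n, traj φ F n ≤ traj φ F m) : entAt φ F ≤ 0 := by
  have hT : Tendsto (fun n : ℕ => ((Real.log (Nat.card (traj φ F m)) / n : ℝ) : EReal)) atTop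
      (𝓝 ((0 : ℝ) : EReal)) :=
    (continuous_coe_real_ereal.tendsto _).comp (tendsto_const_div_atTop_nhds_zero_nat _)
  rw [← EReal.coe_zero, ← hT.limsup_eq]
  refine limsup_le_limsup (Eventually.of_forall fun n => ?_)
  have hfinm : Finite (traj φ F m) := traj_finite φ hF m
  have hfinn : Finite (traj φ F n) := traj_finite φ hF n
  have h1 : Nat.card (traj φ F n) ≤ Nat.card (traj φ F m) :=
    Nat.card_le_card_of_injective _ (AddSubgroup.inclusion_injective (h n))
  have h2 : 0 < Nat.card (traj φ F n) := Nat.card_pos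
  have h3 : Real.log (Nat.card (traj φ F n)) / n ≤ Real.log (Nat.card (traj φ F m)) / n :=
    div_le_div_of_nonneg_right
      (Real.log_le_log (by exact_mod_cast h2) (by exact_mod_cast h1)) (Nat.cast_nonneg _)
  exact EReal.coe_le_coe_iff.2 h3

/-! ### The dichotomy -/

section Top

variable [TopologicalSpace G] [IsTopologicalAddGroup G] [CompactSpace G] [T2Space G]

omit [IsTopologicalAddGroup G] [CompactSpace G] [T2Space G] in
lemma continuous_pow' {φ : AddMonoid.End G} (hφ : Continuous φ) (i : ℕ) :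
    Continuous (φ ^ i : AddMonoid.End G) := by
  induction i with
  | zero => exact continuous_id
  | succ i ih =>
    rw [pow_succ]
    exact ih.comp hφ

omit [CompactSpace G] [T2Space G] in
lemma continuous_aeval' {φ : AddMonoid.End G} (hφ : Continuous φ) (p : ℤ[X]) :
    Continuous (aeval φ p : AddMonoid.End G) := by
  have h : ∀ v, (aeval φ p : AddMonoid.End G) v =
      ∑ i ∈ Finset.range (p.natDegree + 1), p.coeff i • ((φ ^ i) v) := by
    intro v
    rw [aeval_eq_sum_range, end_sum_apply]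
    rfl
  have h2 : ((aeval φ p : AddMonoid.End G) : G → G) =
      fun v => ∑ i ∈ Finset.range (p.natDegree + 1), p.coeff i • ((φ ^ i) v) := funext h
  rw [h2]
  exact continuous_finsetSum _ fun i _ => (continuous_pow' hφ i).zsmul _

/-- A continuous endomorphism with finite entropy satisfies a monic equation. -/
lemma exists_monic (htors : ∀ v : G, (AddSubgroup.zmultiples v : Set G).Finite)
    {φ : AddMonoid.End G} (hφ : Continuous φ) (hent : ent φ ≠ ⊤) :
    ∃ m : ℤ[X], m.Monic ∧ aeval φ m = 0 := by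
  classical
  have hle : ∀ F : AddSubgroup G, (F : Set G).Finite → entAt φ F ≤ ent φ := fun F hF =>
    le_iSup₂_of_le F hF le_rfl
  have h0 : 0 ≤ ent φ := (entAt_nonneg φ ⊥).trans (hle ⊥ (by simp))
  obtain ⟨h, hh⟩ : ∃ h : ℝ, ent φ = (h : EReal) := by
    refine ⟨(ent φ).toReal, (EReal.coe_toReal hent ?_).symm⟩
    intro hb
    rw [hb] at h0
    exact absurd h0 (by simp)
  obtain ⟨F₀, hF₀, hF₀'⟩ : ∃ F₀ : AddSubgroup G, (F₀ : Set G).Finite ∧
      ((h - 1 / 4 : ℝ) : EReal) < entAt φ F₀ := by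
    have h1 : ((h - 1 / 4 : ℝ) : EReal) < ent φ := by
      rw [hh]; exact_mod_cast (by linarith : h - 1 / 4 < h)
    rw [ent, lt_iSup_iff] at h1
    obtain ⟨F, hF⟩ := h1
    rw [lt_iSup_iff] at hF
    obtain ⟨hF1, hF2⟩ := hF
    exact ⟨F, hF1, hF2⟩
  -- the countable target
  set T : Set G := ⋃ n, (traj φ F₀ n : Set G) with hT
  have hTc : T.Countable := Set.countable_iUnion fun n => (traj_finite φ hF₀ n).countable
  have hcover : ∀ v : G, ∃ c : ℤ[X], (c.leadingCoeff = 1 ∨ c.leadingCoeff = -1) ∧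
      (aeval φ c) v ∈ T := by
    intro v
    have hFfin := sup_finite hF₀ (htors v)
    have h1 : entAt φ (F₀ ⊔ AddSubgroup.zmultiples v) < ((h + 1 / 4 : ℝ) : EReal) := by
      refine (hle _ hFfin).trans_lt ?_
      rw [hh]; exact_mod_cast (by linarith : h < h + 1 / 4)
    have h2 := eventually_lt_of_limsup_lt h1
    have h3 := frequently_lt_of_lt_limsup (by isBoundedDefault) hF₀'
    obtain ⟨n, hn3, hn2, hn1⟩ := (h3.and_eventually (h2.and (eventually_ge_atTop 1))).exists
    have hn2' : Real.log (Nat.card (traj φ (F₀ ⊔ AddSubgroup.zmultiples v) n)) / n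
        < h + 1 / 4 := by exact_mod_cast hn2
    have hn3' : h - 1 / 4 < Real.log (Nat.card (traj φ F₀ n)) / n := by exact_mod_cast hn3
    have hnpos : (0 : ℝ) < n := by exact_mod_cast hn1
    have hlog2 : (0.6931471803 : ℝ) < Real.log 2 := Real.log_two_gt_d9
    have hf1 : Finite (traj φ (F₀ ⊔ AddSubgroup.zmultiples v) n) := traj_finite φ hFfin n
    have hf2 : Finite (traj φ F₀ n) := traj_finite φ hF₀ n
    have hp1 : (0 : ℝ) < Nat.card (traj φ (F₀ ⊔ AddSubgroup.zmultiples v) n) := by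
      exact_mod_cast Nat.card_pos
    have hp2 : (0 : ℝ) < Nat.card (traj φ F₀ n) := by exact_mod_cast Nat.card_pos
    have hcard : Nat.card (traj φ (F₀ ⊔ AddSubgroup.zmultiples v) n) <
        Nat.card (traj φ F₀ n) * 2 ^ n := by
      have h4 : Real.log (Nat.card (traj φ (F₀ ⊔ AddSubgroup.zmultiples v) n)) <
          Real.log (Nat.card (traj φ F₀ n) * 2 ^ n) := by
        rw [Real.log_mul hp2.ne' (by positivity), Real.log_pow]
        rw [div_lt_iff₀ hnpos] at hn2'
        rw [lt_div_iff₀ hnpos] at hn3'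
        nlinarith
      have h5 := (Real.log_lt_log_iff hp1 (by positivity)).1 h4
      exact_mod_cast h5
    obtain ⟨c, hc1, hc2⟩ := exists_pol φ v (traj_finite φ hFfin n) hcard
    exact ⟨c, hc1, Set.mem_iUnion.2 ⟨n, hc2⟩⟩
  -- Baire
  let P := {c : ℤ[X] // c.leadingCoeff = 1 ∨ c.leadingCoeff = -1}
  have hZc : Countable ℤ[X] := by
    rw [← Cardinal.mk_le_aleph0_iff]
    exact (Polynomial.cardinalMk_le_max (R := ℤ)).trans (by simp)
  have hPc : Countable P := Subtype.countable
  have hTc' : Countable T := hTc.to_subtype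
  obtain ⟨⟨c, w⟩, v₀, hv₀⟩ : ∃ p : P × T, (interior {v : G | (aeval φ p.1.1) v = p.2.1}).Nonempty := by
    apply nonempty_interior_of_iUnion_of_closed
    · rintro ⟨c, w⟩
      exact isClosed_eq (continuous_aeval' hφ c.1) continuous_const
    · rw [Set.eq_univ_iff_forall]
      intro v
      obtain ⟨c, hc1, hc2⟩ := hcover v
      exact Set.mem_iUnion.2 ⟨(⟨c, hc1⟩, ⟨_, hc2⟩), rfl⟩
  set ψ : AddMonoid.End G := aeval φ c.1 with hψ
  have hψc : Continuous ψ := continuous_aeval' hφ c.1
  let N : AddSubgroup G := AddMonoidHom.ker (ψ : G →+ G)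
  have hNmem : (N : Set G) ∈ 𝓝 (0 : G) := by
    have h1 : {v : G | ψ v = w.1} ∈ 𝓝 (0 + v₀) := by
      rw [zero_add]; exact mem_interior_iff_mem_nhds.1 hv₀
    have h2 : Tendsto (fun u : G => u + v₀) (𝓝 0) (𝓝 (0 + v₀)) :=
      (continuous_add_const v₀).tendsto 0
    refine Filter.mem_of_superset (h2 h1) ?_
    intro u hu
    have h3 : ψ (u + v₀) = w.1 := hu
    have h4' : v₀ ∈ {v : G | ψ v = w.1} := interior_subset hv₀
    have h4 : ψ v₀ = w.1 := h4'
    rw [map_add, h4, add_eq_right] at h3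
    exact h3
  have hNopen : IsOpen (N : Set G) := AddSubgroup.isOpen_of_mem_nhds N hNmem
  have hfinq : Finite (G ⧸ N) := AddSubgroup.quotient_finite_of_isOpen N hNopen
  have hfinD : Finite (AddMonoidHom.range (ψ : G →+ G)) :=
    Finite.of_equiv _ (QuotientAddGroup.quotientKerEquivRange (ψ : G →+ G)).toEquiv
  let D := AddMonoidHom.range (ψ : G →+ G)
  have hcomm : ∀ i : ℕ, φ ^ i * ψ = ψ * φ ^ i := by
    intro i
    have h1 : φ ^ i = aeval φ ((X : ℤ[X]) ^ i) := by rw [map_pow, aeval_X]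
    rw [h1, hψ, ← map_mul, ← map_mul, mul_comm]
  have hDmem : ∀ (i : ℕ) (d : D), (φ ^ i) d.1 ∈ D := by
    rintro i ⟨_, x, rfl⟩
    refine ⟨(φ ^ i) x, ?_⟩
    exact (DFunLike.congr_fun (hcomm i) x).symm
  let f : ℕ → (D → D) := fun i d => ⟨(φ ^ i) d.1, hDmem i d⟩
  have hfinD' : Finite D := hfinD
  obtain ⟨a, b, hab, hfab⟩ : ∃ a b, a < b ∧ f a = f b := by
    obtain ⟨a, b, hne, hf⟩ := Finite.exists_ne_map_eq_of_infinite f
    rcases lt_or_gt_of_ne hne with h1 | h1
    · exact ⟨a, b, h1, hf⟩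
    · exact ⟨b, a, h1, hf.symm⟩
  set q : ℤ[X] := (X ^ b - X ^ a) with hq
  have hqm : q.Monic := by
    exact Polynomial.monic_X_pow_sub ((Polynomial.degree_X_pow_le a).trans_lt
      (Nat.cast_lt.2 hab))
  have hzero : aeval φ (q * c.1) = 0 := by
    rw [map_mul, ← hψ]
    ext x
    have h1 : (aeval φ q : AddMonoid.End G) = φ ^ b - φ ^ a := by
      rw [hq, map_sub, map_pow, map_pow, aeval_X]
    rw [h1]
    change (φ ^ b) (ψ x) - (φ ^ a) (ψ x) = 0
    have h2 := congrArg Subtype.val (congrFun hfab ⟨ψ x, x, rfl⟩)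
    have h3 : (φ ^ a) (ψ x) = (φ ^ b) (ψ x) := h2
    rw [h3, sub_self]
  have hlead : (q * c.1).leadingCoeff = c.1.leadingCoeff := by
    rw [Polynomial.leadingCoeff_mul, hqm.leadingCoeff, one_mul]
  rcases c.2 with h1 | h1
  · exact ⟨q * c.1, by rw [Polynomial.Monic, hlead, h1], hzero⟩
  · refine ⟨-(q * c.1), ?_, by rw [map_neg, hzero, neg_zero]⟩
    rw [Polynomial.Monic, Polynomial.leadingCoeff_neg, hlead, h1, neg_neg]

/-- Compact torsion groups: the entropy of a continuous endomorphism is `0` or `∞`. -/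
theorem dichotomy (htors : ∀ v : G, (AddSubgroup.zmultiples v : Set G).Finite)
    (φ : AddMonoid.End G) (hφ : Continuous φ) : ent φ = 0 ∨ ent φ = ⊤ := by
  by_cases hent : ent φ = ⊤
  · exact Or.inr hent
  left
  obtain ⟨m, hm, h0⟩ := exists_monic htors hφ hent
  apply le_antisymm
  · exact iSup₂_le fun F hF => entAt_le_zero φ hF (traj_le_of_monic φ hm h0 F)
  · exact (entAt_nonneg φ ⊥).trans (le_iSup₂_of_le ⊥ (by simp) le_rfl)

end Top

/-- Let `K` be a finite abelian group (with the discrete topology) and `φ` a continuous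
endomorphism of `K^ℕ` (with the product topology).  Then the algebraic entropy of `φ` is `0` or
`∞`. -/
theorem result (K : Type*) [AddCommGroup K] [Finite K] [TopologicalSpace K] [DiscreteTopology K]
    (φ : AddMonoid.End (ℕ → K)) (hφ : Continuous φ) : ent φ = 0 ∨ ent φ = ⊤ := by
  refine dichotomy ?_ φ hφ
  intro v
  have h1 : Nat.card K • v = 0 := by
    ext i
    rw [Pi.smul_apply, Pi.zero_apply]
    exact card_nsmul_eq_zero'
  have h2 : IsOfFinAddOrder v := isOfFinAddOrder_iff_nsmul_eq_zero.2 ⟨Nat.card K, Nat.card_pos, h1⟩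
  exact h2.finite_zmultiples

end Pool.Agent.N431.Shelf.EntropyDichotomy
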