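import Mathlib

/-!
# A CIS graph with `α ω < |V|`

Let `H` be the circulant graph on `ℤ/13` with connection set `{±1, ±5}`: it is triangle-free,
4-regular, has 26 edges and independence number 4.  Replace every vertex of `H` by an independent
set of 5 vertices and add, for every edge `e` of `H`, one new vertex adjacent to all the copies of
the two ends of `e`.  The resulting graph has `13 · 5 + 26 = 91` vertices, it is a CIS graph, its
cliques have at most 3 vertices and its independent sets at most 30.
-/

namespace Pool.Agent.Results.MP_703660_co.SmallProduct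

open Finset

/-- A graph is a CIS graph if every (inclusionwise) maximal clique and every (inclusionwise)
maximal independent set have a common vertex. -/
def IsCIS {V : Type*} (G : SimpleGraph V) : Prop :=
  ∀ C S : Set V, Maximal G.IsClique C → Maximal G.IsIndepSet S → (C ∩ S).Nonempty

/-- Adjacency in the circulant graph on `ℤ/13`. -/
def adj13 (a b : ZMod 13) : Bool := decide (a - b = 1 ∨ b - a = 1 ∨ a - b = 5 ∨ b - a = 5)

/-- The vertices: the copies `(a, i)` and the edges, `(a, false)` standing for `{a, a + 1}` and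
`(a, true)` for `{a, a + 5}`. -/
abbrev W := (ZMod 13 × Fin 5) ⊕ (ZMod 13 × Bool)

/-- The second end of an edge. -/
def other (e : ZMod 13 × Bool) : ZMod 13 := if e.2 then e.1 + 5 else e.1 + 1

/-- `a` is an end of the edge `e`. -/
def isEnd (a : ZMod 13) (e : ZMod 13 × Bool) : Bool := decide (a = e.1 ∨ a = other e)

/-- Adjacency of the graph. -/
def adjW : W → W → Prop
  | .inl x, .inl y => adj13 x.1 y.1 = true
  | .inl x, .inr e => isEnd x.1 e = true
  | .inr e, .inl x => isEnd x.1 e = true
  | .inr _, .inr _ => False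

lemma adj13_symm : ∀ a b : ZMod 13, adj13 a b = true → adj13 b a = true := by decide

lemma adj13_irrefl : ∀ a : ZMod 13, ¬ adj13 a a = true := by decide

/-- The graph. -/
def G : SimpleGraph W where
  Adj := adjW
  symm := ⟨by
    rintro (x | e) (y | f) h
    · exact adj13_symm _ _ h
    · exact h
    · exact h
    · exact h⟩
  loopless := ⟨by
    rintro (x | e) h
    · exact adj13_irrefl _ h
    · exact h⟩

lemma adj_inl_inl (x y : ZMod 13 × Fin 5) : G.Adj (.inl x) (.inl y) ↔ adj13 x.1 y.1 = true :=
  Iff.rfl

lemma adj_inl_inr (x : ZMod 13 × Fin 5) (e : ZMod 13 × Bool) :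
    G.Adj (.inl x) (.inr e) ↔ isEnd x.1 e = true := Iff.rfl

lemma adj_inr_inl (x : ZMod 13 × Fin 5) (e : ZMod 13 × Bool) :
    G.Adj (.inr e) (.inl x) ↔ isEnd x.1 e = true := Iff.rfl

lemma not_adj_inr_inr (e f : ZMod 13 × Bool) : ¬ G.Adj (.inr e) (.inr f) := fun h => h

lemma no_triangle_aux : ∀ a b : ZMod 13, adj13 0 a = true → adj13 0 b = true →
    ¬ adj13 a b = true := by decide

lemma adj13_trans (a b c : ZMod 13) : adj13 (a - c) (b - c) = adj13 a b := by
  unfold adj13
  rw [show a - c - (b - c) = a - b by ring, show b - c - (a - c) = b - a by ring]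

lemma no_triangle (a b c : ZMod 13) (h1 : adj13 a b = true) (h2 : adj13 a c = true) :
    ¬ adj13 b c = true := by
  rw [← adj13_trans _ _ a, sub_self] at h1 h2
  rw [← adj13_trans _ _ a]
  exact no_triangle_aux _ _ h1 h2

lemma exists_edge_aux : ∀ b : ZMod 13, adj13 0 b = true →
    (∃ t : Bool, other (0, t) = b) ∨ (∃ t : Bool, other (b, t) = 0) := by decide

lemma other_add (a c : ZMod 13) (t : Bool) : other (a + c, t) = other (a, t) + c := by
  unfold other
  cases t <;> simp <;> ring

lemma exists_edge (a b : ZMod 13) (h : adj13 a b = true) :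
    ∃ e, isEnd a e = true ∧ isEnd b e = true := by
  rw [← adj13_trans _ _ a, sub_self] at h
  rcases exists_edge_aux _ h with ⟨t, ht⟩ | ⟨t, ht⟩
  · refine ⟨(a, t), by simp [isEnd], ?_⟩
    have := other_add 0 a t
    rw [zero_add, ht] at this
    simp [isEnd, this]
  · refine ⟨(b, t), ?_, by simp [isEnd]⟩
    have := other_add (b - a) a t
    rw [sub_add_cancel, ht, zero_add] at this
    simp [isEnd, this]

lemma ends_adj_aux : ∀ t : Bool, adj13 0 (other (0, t)) = true := by decide

lemma ends_adj (e : ZMod 13 × Bool) : adj13 e.1 (other e) = true := by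
  obtain ⟨a, t⟩ := e
  have h := ends_adj_aux t
  have h2 := other_add 0 a t
  rw [zero_add] at h2
  rw [← adj13_trans _ _ a, sub_self]
  simp only [h2, add_sub_cancel_right]
  exact h

/-! ### The graph is CIS -/

section CIS

variable {C : Set W} (hC : Maximal G.IsClique C)

include hC

lemma exists_inr : ∃ e, (Sum.inr e : W) ∈ C := by
  by_contra hno
  push Not at hno
  -- the clique is not empty
  have hne : C.Nonempty := by
    rw [Set.nonempty_iff_ne_empty]
    rintro rfl
    have : (Sum.inl (0, 0) : W) ∈ (∅ : Set W) :=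
      hC.mem_of_prop_insert (SimpleGraph.IsClique.insert hC.1 (by simp))
    simp at this
  obtain ⟨x, hx⟩ := hne
  rcases x with x | e
  swap
  · exact hno e hx
  by_cases h2 : ∃ y, (Sum.inl y : W) ∈ C ∧ y ≠ x
  · obtain ⟨y, hy, hxy⟩ := h2
    have hadj : adj13 x.1 y.1 = true := by
      have := hC.1 hx hy (by simpa using hxy.symm)
      exact this
    obtain ⟨e, he1, he2⟩ := exists_edge _ _ hadj
    apply hno e
    apply hC.mem_of_prop_insert
    refine SimpleGraph.IsClique.insert hC.1 ?_
    rintro (z | f) hz _
    · rw [adj_inr_inl]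
      by_cases hzx : z.1 = x.1
      · rw [hzx]; exact he1
      by_cases hzy : z.1 = y.1
      · rw [hzy]; exact he2
      exfalso
      have h3 : adj13 x.1 z.1 = true := hC.1 hx hz (by
        intro h; apply hzx; simp only [Sum.inl.injEq] at h; rw [h])
      have h4 : adj13 y.1 z.1 = true := hC.1 hy hz (by
        intro h; apply hzy; simp only [Sum.inl.injEq] at h; rw [h])
      exact no_triangle _ _ _ hadj h3 h4
    · exact absurd hz (hno f)
  · push Not at h2
    have h3 : (Sum.inl (x.1 + 1, 0) : W) ∈ C := by
      apply hC.mem_of_prop_insert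
      refine SimpleGraph.IsClique.insert hC.1 ?_
      rintro (z | f) hz _
      · rw [h2 z hz, adj_inl_inl]
        simp [adj13]
      · exact absurd hz (hno f)
    have h4 := h2 _ h3
    have h5 := congrArg Prod.fst h4
    simp only [add_eq_left] at h5
    exact absurd h5 (by decide)

lemma exists_fst {e : ZMod 13 × Bool} (he : (Sum.inr e : W) ∈ C) {a b : ZMod 13}
    (hab : (a = e.1 ∧ b = other e) ∨ (a = other e ∧ b = e.1)) :
    ∃ i, (Sum.inl (a, i) : W) ∈ C := by
  by_contra hno
  push Not at hno
  apply hno 0
  apply hC.mem_of_prop_insert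
  refine SimpleGraph.IsClique.insert hC.1 ?_
  have hadj : adj13 a b = true := by
    rcases hab with ⟨rfl, rfl⟩ | ⟨rfl, rfl⟩
    · exact ends_adj e
    · exact adj13_symm _ _ (ends_adj e)
  rintro (z | f) hz _
  · have h1 : isEnd z.1 e = true := hC.1 hz he (by simp)
    have h2 : z.1 ≠ a := by
      intro h
      apply hno z.2
      rw [← h]
      exact hz
    have h3 : z.1 = b := by
      simp only [isEnd, decide_eq_true_eq] at h1
      rcases hab with ⟨rfl, rfl⟩ | ⟨rfl, rfl⟩ <;> tauto
    rw [adj_inl_inl, h3]
    exact hadj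
  · have h1 : f = e := by
      by_contra hne
      exact not_adj_inr_inr f e (hC.1 hz he (by simpa using hne))
    rw [adj_inl_inr, h1]
    simp only [isEnd, decide_eq_true_eq]
    rcases hab with ⟨rfl, rfl⟩ | ⟨rfl, rfl⟩ <;> simp

end CIS

lemma indep_insert {S : Set W} (hS : G.IsIndepSet S) {a : W} (h : ∀ b ∈ S, ¬ G.Adj a b) :
    G.IsIndepSet (insert a S) := by
  intro x hx y hy hxy hadj
  rcases hx with rfl | hx
  · rcases hy with rfl | hy
    · exact hxy rfl
    · exact h y hy hadj
  · rcases hy with rfl | hy
    · exact h x hx hadj.symm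
    · exact hS hx hy hxy hadj

lemma twin {S : Set W} (hS : Maximal G.IsIndepSet S) {a : ZMod 13} {i j : Fin 5}
    (h : (Sum.inl (a, i) : W) ∈ S) : (Sum.inl (a, j) : W) ∈ S := by
  apply hS.mem_of_prop_insert
  apply indep_insert hS.1
  intro b hb hadj
  have hadj' : G.Adj (Sum.inl (a, i)) b := by
    rcases b with y | e
    · exact hadj
    · exact hadj
  exact hS.1 h hb hadj'.ne hadj'

theorem isCIS : IsCIS G := by
  intro C S hC hS
  obtain ⟨e, he⟩ := exists_inr hC
  obtain ⟨i, hi⟩ := exists_fst hC he (Or.inl ⟨rfl, rfl⟩)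
  obtain ⟨j, hj⟩ := exists_fst hC he (Or.inr ⟨rfl, rfl⟩)
  by_cases heS : (Sum.inr e : W) ∈ S
  · exact ⟨_, he, heS⟩
  -- some neighbour of `e` is in `S`
  have h1 : ∃ b ∈ S, G.Adj (Sum.inr e) b := by
    by_contra hno
    push Not at hno
    exact heS (hS.mem_of_prop_insert (indep_insert hS.1 hno))
  obtain ⟨b, hb, hadj⟩ := h1
  rcases b with z | f
  · rw [adj_inr_inl] at hadj
    simp only [isEnd, decide_eq_true_eq] at hadj
    obtain ⟨z1, z2⟩ := z
    rcases hadj with rfl | rfl
    · exact ⟨_, hi, twin hS hb⟩
    · exact ⟨_, hj, twin hS hb⟩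
  · exact absurd hadj (not_adj_inr_inr e f)

/-! ### Cliques -/

theorem cliqueNum_le : G.cliqueNum ≤ 3 := by
  obtain ⟨s, hs⟩ := G.exists_isNClique_cliqueNum
  rw [← hs.card_eq]
  have hcl := hs.isClique
  have h1 : (s.filter (fun x => x.isRight)).card ≤ 1 := by
    rw [Finset.card_le_one]
    intro x hx y hy
    rw [Finset.mem_filter] at hx hy
    rcases x with x | e <;> rcases y with y | f <;> simp_all
    by_contra hne
    exact not_adj_inr_inr e f (hcl (by simpa using hx) (by simpa using hy) (by simpa using hne))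
  have h2 : (s.filter (fun x => ¬ x.isRight)).card ≤ 2 := by
    by_contra hgt
    push Not at hgt
    obtain ⟨x, y, z, hx, hy, hz, hxy, hxz, hyz⟩ := Finset.two_lt_card_iff.1 hgt
    rw [Finset.mem_filter] at hx hy hz
    rcases x with x | e
    swap; · simp at hx
    rcases y with y | e
    swap; · simp at hy
    rcases z with z | e
    swap; · simp at hz
    have a1 : adj13 x.1 y.1 = true := hcl hx.1 hy.1 hxy
    have a2 : adj13 x.1 z.1 = true := hcl hx.1 hz.1 hxz
    have a3 : adj13 y.1 z.1 = true := hcl hy.1 hz.1 hyz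
    exact no_triangle _ _ _ a1 a2 a3
  have h3 := Finset.card_filter_add_card_filter_not (s := s) (fun x => x.isRight = true)
  omega

/-! ### Independent sets -/

/-- Distinct and not adjacent. -/
def ok (a b : ZMod 13) : Bool := decide (a ≠ b) && !(adj13 a b)

lemma alpha_aux : ∀ b : ZMod 13, ok 0 b = true → ∀ c : ZMod 13, ok 0 c = true → ok b c = true →
    ∀ d : ZMod 13, ok 0 d = true → ok b d = true → ok c d = true →
    ∀ e : ZMod 13, ok 0 e = true → ok b e = true → ok c e = true → ¬ ok d e = true := by
  decide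

lemma alpha_H (I : Finset (ZMod 13)) (hI : ∀ a ∈ I, ∀ b ∈ I, adj13 a b = false) : I.card ≤ 4 := by
  by_contra hgt
  push Not at hgt
  obtain ⟨f⟩ : Nonempty (Fin 5 ↪ I) := by
    apply Function.Embedding.nonempty_of_card_le
    simp
    omega
  have hok : ∀ i j : Fin 5, i ≠ j → ok ((f i : ZMod 13) - f 0) ((f j : ZMod 13) - f 0) = true := by
    intro i j hij
    have h1 : (f i : ZMod 13) ≠ f j := fun h => hij (f.injective (Subtype.ext h))
    have h2 := hI (f i) (f i).2 (f j) (f j).2
    simp only [ok, adj13_trans, h2, Bool.not_false, Bool.and_true, decide_eq_true_eq]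
    intro h
    exact h1 (sub_left_injective h)
  have hok0 : ∀ j : Fin 5, 0 ≠ j → ok 0 ((f j : ZMod 13) - f 0) = true := by
    intro j hj
    have := hok 0 j hj
    rwa [sub_self] at this
  exact alpha_aux _ (hok0 1 (by decide)) _ (hok0 2 (by decide)) (hok 1 2 (by decide))
    _ (hok0 3 (by decide)) (hok 1 3 (by decide)) (hok 2 3 (by decide))
    _ (hok0 4 (by decide)) (hok 1 4 (by decide)) (hok 2 4 (by decide)) (hok 3 4 (by decide))

/-- The edges at a vertex. -/
def star (a : ZMod 13) : Finset (ZMod 13 × Bool) := Finset.univ.filter (fun e => isEnd a e = true)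

lemma card_star : ∀ a, (star a).card = 4 := by decide

theorem indepNum_le : G.indepNum ≤ 30 := by
  classical
  obtain ⟨s, hs⟩ := G.exists_isNIndepSet_indepNum
  rw [← hs.card_eq]
  have hind := hs.isIndepSet
  set I : Finset (ZMod 13) := Finset.univ.filter (fun a => ∃ i : Fin 5, (Sum.inl (a, i) : W) ∈ s)
    with hIdef
  have hI : ∀ a ∈ I, ∀ b ∈ I, adj13 a b = false := by
    intro a ha b hb
    rw [hIdef, Finset.mem_filter] at ha hb
    obtain ⟨-, i, hi⟩ := ha
    obtain ⟨-, j, hj⟩ := hb
    by_contra h
    rw [Bool.not_eq_false] at h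
    have hne : a ≠ b := by rintro rfl; exact adj13_irrefl _ h
    refine hind (Finset.mem_coe.2 hi) (Finset.mem_coe.2 hj) ?_ h
    intro h'
    simp only [Sum.inl.injEq, Prod.mk.injEq] at h'
    exact hne h'.1
  have h4 := alpha_H I hI
  -- the touched edges
  set T : Finset (ZMod 13 × Bool) := I.biUnion star with hT
  have hTcard : T.card = 4 * I.card := by
    rw [hT, Finset.card_biUnion]
    · rw [Finset.sum_congr rfl (fun a _ => card_star a)]
      simp [mul_comm]
    · intro a ha b hb hab
      rw [Function.onFun, Finset.disjoint_left]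
      intro e h1 h2
      simp only [star, Finset.mem_filter, Finset.mem_univ, true_and, isEnd,
        decide_eq_true_eq] at h1 h2
      have h3 := ends_adj e
      have h5 := hI a ha b hb
      rcases h1 with rfl | rfl <;> rcases h2 with rfl | rfl
      · exact hab rfl
      · rw [h3] at h5; cases h5
      · rw [adj13_symm _ _ h3] at h5; cases h5
      · exact hab rfl
  -- `s` is contained in `I × Fin 5` together with the untouched edges
  have hsub : s ⊆ (I ×ˢ (Finset.univ : Finset (Fin 5))).map Function.Embedding.inl ∪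
      (Finset.univ \ T).map Function.Embedding.inr := by
    intro x hx
    rw [Finset.mem_union]
    rcases x with x | e
    · left
      rw [Finset.mem_map]
      refine ⟨x, ?_, rfl⟩
      rw [Finset.mem_product]
      refine ⟨?_, Finset.mem_univ _⟩
      rw [hIdef, Finset.mem_filter]
      exact ⟨Finset.mem_univ _, x.2, hx⟩
    · right
      rw [Finset.mem_map]
      refine ⟨e, ?_, rfl⟩
      rw [Finset.mem_sdiff]
      refine ⟨Finset.mem_univ _, ?_⟩
      intro heT
      rw [hT, Finset.mem_biUnion] at heT
      obtain ⟨a, ha, hae⟩ := heT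
      rw [hIdef, Finset.mem_filter] at ha
      obtain ⟨-, i, hi⟩ := ha
      simp only [star, Finset.mem_filter, Finset.mem_univ, true_and] at hae
      exact hind (Finset.mem_coe.2 hi) (Finset.mem_coe.2 hx) (by simp) hae
  have h5 := Finset.card_le_card hsub
  have h6 := Finset.card_union_le ((I ×ˢ (Finset.univ : Finset (Fin 5))).map
    (Function.Embedding.inl : _ ↪ W)) ((Finset.univ \ T).map (Function.Embedding.inr : _ ↪ W))
  rw [Finset.card_map, Finset.card_map, Finset.card_product, Finset.card_sdiff_of_subset
    (Finset.subset_univ _), hTcard] at h6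
  have h7 : (Finset.univ : Finset (Fin 5)).card = 5 := by simp
  have h8 : (Finset.univ : Finset (ZMod 13 × Bool)).card = 26 := by
    rw [Finset.card_univ, Fintype.card_prod, ZMod.card, Fintype.card_bool]
  have h9 : T.card ≤ 26 := by rw [← h8]; exact Finset.card_le_card (Finset.subset_univ _)
  rw [h7, h8] at h6
  omega

/-- There is a finite CIS graph (with 91 vertices) whose independence number times clique number
is less than its number of vertices. -/
theorem result : ∃ (V : Type) (_ : Fintype V) (G : SimpleGraph V),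
    IsCIS G ∧ G.indepNum * G.cliqueNum < Fintype.card V := by
  refine ⟨W, inferInstance, G, isCIS, ?_⟩
  have h1 : Fintype.card W = 91 := by
    rw [Fintype.card_sum, Fintype.card_prod, Fintype.card_prod, ZMod.card, Fintype.card_fin,
      Fintype.card_bool]
  have h2 := Nat.mul_le_mul indepNum_le cliqueNum_le
  omega

end Pool.Agent.Results.MP_703660_co.SmallProduct
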